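import Mathlib
import Pool.Agent.Results.MP_fe892a_gt.ClosedCounterexample

/-!
# Jones's set function on a product of two indecomposable continua

Let `X` be the dyadic and `Y` the triadic solenoid. Both are indecomposable metric continua. The
closed strips `{(x, y) : |x₀ - y₀ - c| ≤ δ}` around translates of the diagonal are connected in
`X × Y` (this is `isConnected_strip`, proved in the imported file). So the strip `W` around the
diagonal is a proper subcontinuum with interior points, and every point outside of `W` has a strip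
disjoint from `W` as a neighbourhood. Hence `T(W) = W`.
-/

open Set Topology

noncomputable section

namespace Pool.Agent.Results.MP_cdfe0d_gt.DisjointStrips

/-- `K` is a subcontinuum of the space `S`: a nonempty compact connected subset. -/
def IsSubcontinuum {S : Type*} [TopologicalSpace S] (K : Set S) : Prop :=
  IsCompact K ∧ IsConnected K

/-- `X` is an indecomposable continuum: a nonempty compact connected Hausdorff space which is not
the union of two proper subcontinua. -/
def IsIndecomposableContinuum (X : Type*) [TopologicalSpace X] : Prop :=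
  T2Space X ∧ CompactSpace X ∧ ConnectedSpace X ∧
    ¬ ∃ A B : Set X, IsSubcontinuum A ∧ IsSubcontinuum B ∧ A ≠ univ ∧ B ≠ univ ∧ A ∪ B = univ

/-- Jones's set function `T`: the complement of the set of all points that lie in the interior of
a subcontinuum of `S` disjoint from `A`. -/
def jonesT {S : Type*} [TopologicalSpace S] (A : Set S) : Set S :=
  {p | ∃ K : Set S, IsSubcontinuum K ∧ p ∈ interior K ∧ K ∩ A = ∅}ᶜ

open Pool.Agent.Results.MP_fe892a_gt.ClosedCounterexample in
/-- There are (metrizable, nondegenerate) indecomposable continua `X` and `Y` and a subcontinuum `W`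
of `X × Y` with nonempty interior and `T(W) = W ≠ X × Y`. -/
theorem result : ∃ (X Y : Type) (_ : TopologicalSpace X) (_ : TopologicalSpace Y),
    TopologicalSpace.MetrizableSpace X ∧ TopologicalSpace.MetrizableSpace Y ∧
    Nontrivial X ∧ Nontrivial Y ∧
    IsIndecomposableContinuum X ∧ IsIndecomposableContinuum Y ∧
    ∃ W : Set (X × Y), IsSubcontinuum W ∧ (interior W).Nonempty ∧ W ≠ univ ∧ jonesT W = W := by
  have hcont : Continuous fun z : Sol 2 × Sol 3 => z.1.1 0 - z.2.1 0 :=
    ((Sol.continuous_coord 0).comp continuous_fst).sub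
      ((Sol.continuous_coord 0).comp continuous_snd)
  have hclosed : ∀ (c δ : ℝ),
      IsClosed {z : Sol 2 × Sol 3 | ‖z.1.1 0 - z.2.1 0 - (c : UnitAddCircle)‖ ≤ δ} := by
    intro c δ
    exact isClosed_le ((hcont.sub continuous_const).norm) continuous_const
  have hopen : ∀ (c δ : ℝ),
      IsOpen {z : Sol 2 × Sol 3 | ‖z.1.1 0 - z.2.1 0 - (c : UnitAddCircle)‖ < δ} := by
    intro c δ
    exact isOpen_lt ((hcont.sub continuous_const).norm) continuous_const
  have hint : ∀ (c δ : ℝ),
      {z : Sol 2 × Sol 3 | ‖z.1.1 0 - z.2.1 0 - (c : UnitAddCircle)‖ < δ} ⊆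
        interior {z : Sol 2 × Sol 3 | ‖z.1.1 0 - z.2.1 0 - (c : UnitAddCircle)‖ ≤ δ} := by
    intro c δ
    refine interior_maximal ?_ (hopen c δ)
    intro z hz
    have hz' : ‖z.1.1 0 - z.2.1 0 - (c : UnitAddCircle)‖ < δ := hz
    exact hz'.le
  have hsub : ∀ (c δ : ℝ), 0 ≤ δ →
      IsSubcontinuum {z : Sol 2 × Sol 3 | ‖z.1.1 0 - z.2.1 0 - (c : UnitAddCircle)‖ ≤ δ} := by
    intro c δ hδ
    exact ⟨(hclosed c δ).isCompact, isConnected_strip c δ hδ⟩
  refine ⟨Sol 2, Sol 3, inferInstance, inferInstance, Sol.metrizable 2, Sol.metrizable 3,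
    Sol.nontrivial two_ne_zero, Sol.nontrivial three_ne_zero,
    Sol.indecomposable le_rfl, Sol.indecomposable (by norm_num),
    {z : Sol 2 × Sol 3 | ‖z.1.1 0 - z.2.1 0 - ((0 : ℝ) : UnitAddCircle)‖ ≤ 1 / 8},
    hsub 0 (1 / 8) (by norm_num), ?_, ?_, ?_⟩
  · refine ⟨(0, 0), hint 0 (1 / 8) ?_⟩
    show ‖(0 : UnitAddCircle) - 0 - ((0 : ℝ) : UnitAddCircle)‖ < 1 / 8
    simp
  · intro h
    have h1 : ((zpt, 0) : Sol 2 × Sol 3) ∈
        {z : Sol 2 × Sol 3 | ‖z.1.1 0 - z.2.1 0 - ((0 : ℝ) : UnitAddCircle)‖ ≤ 1 / 8} := by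
      rw [h]; trivial
    have h2 : ‖zpt.1 0 - (0 : UnitAddCircle) - ((0 : ℝ) : UnitAddCircle)‖ ≤ 1 / 8 := h1
    rw [zpt_coord, QuotientAddGroup.mk_zero, sub_zero, sub_zero, norm_hlf] at h2
    norm_num at h2
  · apply Subset.antisymm
    · intro p hp
      by_contra hpW
      apply hp
      have hpW' : 1 / 8 < ‖p.1.1 0 - p.2.1 0‖ := by
        have h1 : ¬ ‖p.1.1 0 - p.2.1 0 - ((0 : ℝ) : UnitAddCircle)‖ ≤ 1 / 8 := hpW
        rw [QuotientAddGroup.mk_zero, sub_zero, not_le] at h1
        exact h1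
      obtain ⟨c, hc⟩ := QuotientAddGroup.mk_surjective (p.1.1 0 - p.2.1 0)
      have hc' : ((c : ℝ) : UnitAddCircle) = p.1.1 0 - p.2.1 0 := hc
      set d : ℝ := ‖p.1.1 0 - p.2.1 0‖ - 1 / 8 with hd
      have hd0 : 0 < d := by rw [hd]; linarith
      refine ⟨_, hsub c (d / 2) (by linarith), hint c (d / 2) ?_, ?_⟩
      · show ‖p.1.1 0 - p.2.1 0 - (c : UnitAddCircle)‖ < d / 2
        rw [hc', sub_self, norm_zero]
        linarith
      · rw [eq_empty_iff_forall_notMem]
        rintro z ⟨hz1, hz2⟩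
        have hz1' : ‖z.1.1 0 - z.2.1 0 - (c : UnitAddCircle)‖ ≤ d / 2 := hz1
        have hz2' : ‖z.1.1 0 - z.2.1 0‖ ≤ 1 / 8 := by
          have h1 : ‖z.1.1 0 - z.2.1 0 - ((0 : ℝ) : UnitAddCircle)‖ ≤ 1 / 8 := hz2
          rwa [QuotientAddGroup.mk_zero, sub_zero] at h1
        have h3 : ‖(c : UnitAddCircle)‖ ≤ ‖z.1.1 0 - z.2.1 0‖ +
            ‖z.1.1 0 - z.2.1 0 - (c : UnitAddCircle)‖ := by
          have := norm_sub_le (z.1.1 0 - z.2.1 0) (z.1.1 0 - z.2.1 0 - (c : UnitAddCircle))
          rwa [sub_sub_cancel] at this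
        rw [hc'] at h3 hz1'
        linarith
    · rintro p hp ⟨K, _, hpK, hK⟩
      have : p ∈ (∅ : Set (Sol 2 × Sol 3)) := by
        rw [← hK]
        exact ⟨interior_subset hpK, hp⟩
      exact this

end Pool.Agent.Results.MP_cdfe0d_gt.DisjointStrips
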